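import Pool.Agent.MP_3ee8cb_gt.CZL.Gd
import Pool.Agent.MP_3ee8cb_gt.CZ.Spec

/-! The row on good vectors. -/

namespace Pool.Agent.MP_3ee8cb_gt.CZ

theorem sGDA : SGDA := fun _ _ _ _ o j o' _ cf _ ha L => CZL.ae_gd o j o' cf ha L

end Pool.Agent.MP_3ee8cb_gt.CZ
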