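import Pool.Agent.MP_3ee8cb_gt.CZL.Gr
import Pool.Agent.MP_3ee8cb_gt.CZI.Graph
import Pool.Agent.MP_3ee8cb_gt.CZO.Link

/-! Almost every vector is good. -/

namespace Pool.Agent.MP_3ee8cb_gt.CZL

open Set Filter Topology MeasureTheory D3 CZO
open scoped RealInnerProductSpace

variable {m m' : MF} {φ : V × V → V × V} {a : ℝ} {z : V × V}

/-- Normalisation of the vector. -/
noncomputable def nz (z : V × V) : V × V := (z.1, ‖z.2‖⁻¹ • z.2)

theorem nz_unit (hz : z.2 ≠ 0) : ‖(nz z).2‖ = 1 := norm_smul_inv_norm hz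

theorem nz_self (hz : ‖z.2‖ = 1) : nz z = z := by simp [nz, hz]

theorem nz_back (hz : z.2 ≠ 0) : ‖z.2‖ • (nz z).2 = z.2 :=
  smul_inv_smul₀ (norm_ne_zero_iff.2 hz) _

theorem nz_cont (hz : z.2 ≠ 0) : ContinuousAt nz z :=
  continuousAt_fst.prodMk
    ((continuousAt_snd.norm.inv₀ (norm_ne_zero_iff.2 hz)).smul continuousAt_snd)

theorem ne_of_unit (hz : ‖z.2‖ = 1) : z.2 ≠ 0 := fun e => by simp [e] at hz

theorem nz_der (hz : ‖z.2‖ = 1) : ∃ N : V × V →L[ℝ] V × V, HasFDerivAt nz N z ∧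
    ∀ ξ, N ξ = ξ - ⟪z.2, ξ.2⟫ • (0, z.2) := by
  have h1 := ((hasFDerivAt_snd (𝕜 := ℝ) (p := z)).norm_sq).sqrt (by simp [hz])
  simp only [Real.sqrt_sq (norm_nonneg _)] at h1
  have h2 := (hasFDerivAt_fst (𝕜 := ℝ) (p := z)).prodMk
    (((hasDerivAt_inv (by simp [hz] : ‖z.2‖ ≠ 0)).comp_hasFDerivAt z h1).smul
      (hasFDerivAt_snd (𝕜 := ℝ) (p := z)))
  refine ⟨_, h2, fun ξ => Prod.ext (by simp) ?_⟩
  simp [hz, sub_eq_add_neg]

theorem phi_nz (cf : C0F m m' φ) (hz : z.2 ≠ 0) :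
    φ z = ((φ (nz z)).1, ‖z.2‖ • (φ (nz z)).2) := by
  have := cf.hom ‖z.2‖ z.1 (nz z).2 (norm_pos_iff.2 hz) (ne_of_unit (nz_unit hz))
  rwa [nz_back hz] at this

theorem cone {u u' : V × V} {r r' : ℝ} (hr : 0 ≤ r) (h : ‖u'.2‖ = 1) :
    ‖(u.1, r • u.2) - (u'.1, r' • u'.2)‖ ≤ (1 + r) * ‖u' - u‖ + |r - r'| := by
  have e : r • u.2 - r' • u'.2 = r • (u - u').2 + (r - r') • u'.2 := by
    rw [Prod.snd_sub, smul_sub, sub_smul]
    abel
  have n1 := norm_fst_le (u - u')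
  have n2 := mul_le_mul_of_nonneg_left (norm_snd_le (u - u')) hr
  have n3 := mul_nonneg hr (norm_nonneg (u - u'))
  rw [norm_sub_rev u' u]
  refine max_le ?_ ?_
  · exact n1.trans (by linarith [abs_nonneg (r - r')])
  · refine (le_of_eq (congrArg norm e)).trans ((norm_add_le _ _).trans ?_)
    rw [norm_smul, norm_smul, h, Real.norm_of_nonneg hr, Real.norm_eq_abs]
    linarith [norm_nonneg (u - u')]

/-- The chart of the punctured tangent bundle. -/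
noncomputable def pc (m' : MF) (φ : V × V → V × V) (w₀ z : V × V) : V × V :=
  (z.1, ec m' w₀ (φ (nz z)) + ‖z.2‖ • w₀.2)

theorem pc_le {w₀ : V × V} (h : ‖w₀.2‖ = 1) (z z' : V × V) :
    ‖z'.1 - z.1‖ ≤ ‖pc m' φ w₀ z - pc m' φ w₀ z'‖ ∧
    |‖z.2‖ - ‖z'.2‖| ≤ ‖pc m' φ w₀ z - pc m' φ w₀ z'‖ ∧
    ‖ec m' w₀ (φ (nz z')) - ec m' w₀ (φ (nz z))‖ ≤ 2 * ‖pc m' φ w₀ z - pc m' φ w₀ z'‖ := by
  set δ := pc m' φ w₀ z - pc m' φ w₀ z' with hδ
  have e : δ.2 = ec m' w₀ (φ (nz z) - φ (nz z')) + (‖z.2‖ - ‖z'.2‖) • w₀.2 := by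
    rw [map_sub, sub_smul, hδ, Prod.snd_sub]
    exact add_sub_add_comm _ _ _ _
  have h2 : |‖z.2‖ - ‖z'.2‖| ≤ ‖δ‖ := by
    have := abs_real_inner_le_norm w₀.2 δ.2
    rw [h, one_mul] at this
    refine le_trans (le_of_eq ?_) (this.trans (norm_snd_le δ))
    rw [e, inner_add_right, ec_perp m' h, inner_smul_right, real_inner_self_eq_norm_sq, h]
    simp
  refine ⟨(norm_sub_rev _ _).trans_le (norm_fst_le δ), h2, ?_⟩
  rw [norm_sub_rev, ← map_sub, eq_sub_of_add_eq e.symm]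
  refine (norm_sub_le _ _).trans ?_
  rw [norm_smul, h, Real.norm_eq_abs]
  linarith [norm_snd_le δ]

theorem graph0 (o' : m'.OK) (cf : C0F m m' φ) (ha : 0 < a) (L : LIPF m m' φ a)
    (hz : ‖z.2‖ = 1) : ∃ M : ℝ, 0 < M ∧ ∀ᶠ p in 𝓝[U2] (z, z), ‖p.2 - p.1‖ + ‖φ p.2 - φ p.1‖ ≤
      M * (‖p.2.1 - p.1.1‖ + ‖ec m' (φ z) (φ p.2) - ec m' (φ z) (φ p.1)‖) := by
  obtain ⟨c, c0, h⟩ := L z hz
  obtain ⟨C, h⟩ := h 0 1 one_pos
  simp only [o'.zero] at h
  exact h.graph o' ha c0 hz (cf.cont.continuousAt (nb (ne_of_unit hz))).continuousWithinAt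
    fun w hw => (cf.norm w (ne_of_unit hw)).trans hw

theorem six (o' : m'.OK) (cf : C0F m m' φ) (ha : 0 < a) (L : LIPF m m' φ a) (hz : z.2 ≠ 0) :
    ∃ M : ℝ, (∀ᶠ y in 𝓝 z, ContinuousAt (pc m' φ (φ (nz z))) y) ∧
      ∀ᶠ p : (V × V) × V × V in 𝓝 (z, z), ‖p.1 - p.2‖ + ‖φ p.1 - φ p.2‖ ≤
        M * ‖pc m' φ (φ (nz z)) p.1 - pc m' φ (φ (nz z)) p.2‖ := by
  obtain ⟨M, M0, h⟩ := graph0 o' cf ha L (nz_unit hz)
  have un : ∀ w : V × V, w.2 ≠ 0 → ‖(φ (nz w)).2‖ = 1 := fun w hw =>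
    (cf.norm _ (ne_of_unit (nz_unit hw))).trans (nz_unit hw)
  have ev : ∀ᶠ y in 𝓝 z, y.2 ≠ 0 := nb hz
  have ev2 : ∀ᶠ y in 𝓝 z, ‖y.2‖ ≤ ‖z.2‖ + 1 :=
    continuousAt_snd.norm.eventually (ge_mem_nhds (lt_add_one _))
  refine ⟨(2 + ‖z.2‖) * (M * 3) + 2, ev.mono fun y hy => continuousAt_fst.prodMk
    (((ec m' _).continuous.continuousAt.comp ((cf.cont.continuousAt
      (nb (ne_of_unit (nz_unit hy)))).comp (nz_cont hy))).add
      (continuousAt_snd.norm.smul continuousAt_const)), ?_⟩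
  have t1 : Tendsto (fun p : (V × V) × V × V => p.1) (𝓝 (z, z)) (𝓝 z) := continuous_fst.tendsto _
  have t2 : Tendsto (fun p : (V × V) × V × V => p.2) (𝓝 (z, z)) (𝓝 z) := continuous_snd.tendsto _
  filter_upwards [(pair_lim (nz_cont hz) (ev.mono fun y => nz_unit)).eventually h,
    t1.eventually ev, t2.eventually ev, t1.eventually ev2] with p hp h1 h2 h3
  obtain ⟨b1, b2, b3⟩ := pc_le (m' := m') (φ := φ) (un z hz) p.1 p.2
  have c1 := cone (u := nz p.1) (r' := ‖p.2.2‖) (norm_nonneg p.1.2) (nz_unit h2)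
  have c2 := cone (u := φ (nz p.1)) (r' := ‖p.2.2‖) (norm_nonneg p.1.2) (un _ h2)
  rw [nz_back h1, nz_back h2] at c1
  rw [← phi_nz cf h1, ← phi_nz cf h2] at c2
  have c3 : ‖nz p.2 - nz p.1‖ + ‖φ (nz p.2) - φ (nz p.1)‖ ≤
      M * 3 * ‖pc m' φ (φ (nz z)) p.1 - pc m' φ (φ (nz z)) p.2‖ := by
    refine hp.trans ?_
    rw [mul_assoc]
    exact mul_le_mul_of_nonneg_left (by have : ‖(nz p.2).1 - (nz p.1).1‖ ≤ _ := b1; linarith) M0.le
  have c4 := mul_le_mul c3 (show 1 + ‖p.1.2‖ ≤ 2 + ‖z.2‖ by linarith) (by positivity)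
    (by positivity)
  have c5 : ‖p.1 - p.2‖ ≤ _ := c1
  nlinarith

/-- The conjugacy is differentiable almost everywhere. -/
theorem ae_dif (o' : m'.OK) (cf : C0F m m' φ) (ha : 0 < a) (L : LIPF m m' φ a) :
    ∀ᵐ z : V × V, z.2 ≠ 0 → DifferentiableAt ℝ φ z :=
  CZI.ae_differentiableAt (G := V × V) ((volume : Measure V).prod volume) rfl
    (S := {z | z.2 ≠ 0}) fun _ hz => ⟨_, six o' cf ha L hz⟩

theorem dif_nz (cf : C0F m m' φ) (hz : z.2 ≠ 0) (hd : DifferentiableAt ℝ φ z) :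
    DifferentiableAt ℝ φ (nz z) := by
  have r0 := norm_pos_iff.2 hz
  have d : ∀ (r : ℝ) w, DifferentiableAt ℝ (fun w : V × V => (w.1, r • w.2)) w := by fun_prop
  have e : ((nz z).1, ‖z.2‖ • (nz z).2) = z := Prod.ext rfl (nz_back hz)
  refine ((d ‖z.2‖⁻¹ _).comp _ (DifferentiableAt.comp (g := φ) (nz z) (by rw [e]; exact hd)
    (d ‖z.2‖ _))).congr_of_eventuallyEq ?_
  filter_upwards [nb (ne_of_unit (nz_unit hz))] with w hw
  simp only [Function.comp_apply, cf.hom _ w.1 w.2 r0 hw, inv_smul_smul₀ r0.ne']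

/-- The fibre inequality with a gap that does not depend on time. -/
theorem gap (o' : m'.OK) (L : LIPF m m' φ a) (hz : ‖z.2‖ = 1) : ∃ c, 0 < c ∧
    (DifferentiableAt ℝ φ z → ∀ t e, ⟪z.2, e⟫ = 0 →
      c * ‖e‖ ^ 2 + a ^ 2 * ‖m'.J (φ z) (fderiv ℝ φ z (0, e)) t‖ ^ 2 ≤
        ‖m'.J' (φ z) (fderiv ℝ φ z (0, e)) t‖ ^ 2) := by
  obtain ⟨c, c0, h⟩ := L z hz
  refine ⟨c, c0, fun hd t e he => le_of_forall_pos_le_add fun η η0 => ?_⟩
  obtain ⟨N, n1, n2⟩ := nz_der hz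
  set Y := ‖m'.J' (φ z) (fderiv ℝ φ z (0, e)) t‖ ^ 2 with hY
  have Y0 : 0 ≤ Y := by positivity
  obtain ⟨C, h⟩ := h t (η / (Y + 1)) (by positivity)
  have d1 : HasFDerivAt φ (fderiv ℝ φ z) (nz z) := by rw [nz_self hz]; exact hd.hasFDerivAt
  have d2 := ((Dia.dZ o' t (φ (nz z))).hasFDerivAt.comp z (d1.comp z n1))
  rw [← nz_self hz] at h
  have ev : ∀ᶠ y in 𝓝 z, y.2 ≠ 0 := nb (ne_of_unit hz)
  have := (h.first (k := nz) (ev.mono fun y => nz_unit) n1 d2 (0, e)).1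
  simp only [ContinuousLinearMap.comp_apply, n2, he, zero_smul, sub_zero, nz_self hz, norm_zero]
    at this
  have e1 : η / (Y + 1) * Y ≤ η := by
    rw [div_mul_eq_mul_div, div_le_iff₀ (by positivity)]
    nlinarith
  have e2 : c * ‖e‖ ^ 2 + a ^ 2 * ‖m'.J (φ z) (fderiv ℝ φ z (0, e)) t‖ ^ 2 ≤
    (1 + η / (Y + 1)) * Y + C * 0 ^ 2 := this
  linarith

theorem dia (o' : m'.OK) (L : LIPF m m' φ a) : Dia m' φ a := fun w hw hd t e he e0 => by
  obtain ⟨c, c0, h⟩ := gap o' L hw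
  have := h hd t e he
  have p : 0 < c * ‖e‖ ^ 2 := mul_pos c0 (pow_pos (norm_pos_iff.2 e0) 2)
  exact lt_of_pow_lt_pow_left₀ 2 (norm_nonneg _) (by rw [mul_pow]; linarith)

/-- Every point of differentiability is good. -/
theorem gd (o : m.OK) (j : m.Jac) (o' : m'.OK) (cf : C0F m m' φ) (ha : 0 < a)
    (L : LIPF m m' φ a) (hz : ‖z.2‖ = 1) (hd : DifferentiableAt ℝ φ z) : Gd m m' φ a z := by
  have z0 := ne_of_unit hz
  have ev : ∀ᶠ y in 𝓝 z, y.2 ≠ 0 := nb z0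
  obtain ⟨N, n1, n2⟩ := nz_der hz
  obtain ⟨c, c0, h⟩ := L z hz
  obtain ⟨C, h⟩ := h 0 1 one_pos
  simp only [o'.zero] at h
  have d1 : HasFDerivAt φ (fderiv ℝ φ z) (nz z) := by rw [nz_self hz]; exact hd.hasFDerivAt
  have rad := radial cf z0 hd
  have hN : ∀ ξ, m.hor z (N ξ) = m.hor z ξ ∧ m.ver z (N ξ) = m.ver z ξ - ⟪z.2, ξ.2⟫ • z.2 ∧
      m'.hor (φ z) (fderiv ℝ φ z (N ξ)) = m'.hor (φ z) (fderiv ℝ φ z ξ) ∧
      m'.ver (φ z) (fderiv ℝ φ z (N ξ)) =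
        m'.ver (φ z) (fderiv ℝ φ z ξ) - ⟪z.2, ξ.2⟫ • (φ z).2 := fun ξ => by
    simp only [n2, map_sub, map_smul, rad]
    simp [MF.hor, MF.ver]
  have al : ∀ ξ, ⟪(φ z).2, m'.hor (φ z) (fderiv ℝ φ z ξ)⟫ = ⟪z.2, m.hor z ξ⟫ := fun ξ => by
    have h' := h
    rw [← nz_self hz] at h'
    have := (h'.first (k := nz) (ev.mono fun y => nz_unit) n1 (d1.comp z n1) ξ).2
    simp only [ContinuousLinearMap.comp_apply, nz_self hz] at this
    rwa [(hN ξ).1, (hN ξ).2.2.1] at this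
  refine ⟨hz, hd, al, fun ξ η => ?_, sGD m m' φ a z o j o' cf (dia o' L) hz hd⟩
  obtain ⟨M, s1, s2⟩ := six o' cf ha L z0
  obtain ⟨M', M0, s3⟩ := graph0 o' cf ha L hz
  rw [nz_self hz] at s1 s2
  set π := pc m' φ (φ z) with hπ
  obtain ⟨κ, U, zU, sU, ch⟩ := CZI.chart (G := V × V) rfl s1 s2 ev
  have dπ : DifferentiableAt ℝ π z := differentiableAt_fst.prodMk
    (((ec m' (φ z)).differentiableAt.comp z (d1.comp z n1).differentiableAt).add
      ((differentiableAt_snd.norm ℝ z0).smul_const _))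
  have inj : Function.Injective (fderiv ℝ π z) := by
    refine (injective_iff_map_eq_zero _).2 fun ξ e => ?_
    have l0 : Tendsto (fun s : ℝ => (z + s • ξ, z)) (𝓝[>] 0) (𝓝 (z, z)) := by
      have : Continuous fun s : ℝ => (z + s • ξ, z) := by fun_prop
      simpa using (this.tendsto 0).mono_left (nhdsWithin_le_nhds (s := Ioi 0))
    have t := ((dπ.hasFDerivAt.hasLineDerivAt ξ).tendsto_slope_zero_right.norm).const_mul M
    rw [e, norm_zero, mul_zero] at t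
    refine norm_le_zero_iff.1 (ge_of_tendsto t ?_)
    filter_upwards [l0.eventually s2, self_mem_nhdsWithin] with s hs s0
    have s0 : 0 < s := s0
    rw [add_sub_cancel_left, norm_smul, Real.norm_of_nonneg s0.le] at hs
    rw [norm_smul, norm_inv, Real.norm_of_nonneg s0.le, mul_left_comm, le_inv_mul_iff₀ s0]
    linarith [norm_nonneg (φ (z + s • ξ) - φ z)]
  let P : (V × V) ≃L[ℝ] V × V := (LinearEquiv.ofInjectiveEndo (fderiv ℝ π z).toLinearMap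
    inj).toContinuousLinearEquiv
  have nW := ch.oW.mem_nhds (ch.mπ zU)
  have kz : κ (π z) = z := ch.left z zU
  have cκ : ContinuousAt κ (π z) := ch.lκ.continuousOn.continuousAt nW
  have dκ : HasFDerivAt κ (P.symm : V × V →L[ℝ] V × V) (π z) :=
    HasFDerivAt.of_local_left_inverse cκ (by rw [kz]; exact dπ.hasFDerivAt)
      (mem_of_superset nW ch.right)
  have n1' : HasFDerivAt nz N (κ (π z)) := by rw [kz]; exact n1
  have kz' : nz (κ (π z)) = z := by rw [kz, nz_self hz]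
  have dk := n1'.comp (π z) dκ
  have d2 : HasFDerivAt φ (fderiv ℝ φ z) (nz (κ (π z))) := by rw [kz']; exact hd.hasFDerivAt
  have un : ∀ᶠ e in 𝓝 (π z), ‖(nz (κ e)).2‖ = 1 :=
    mem_of_superset nW fun e he => nz_unit (sU (ch.mκ he))
  have pl := pair_lim (k := fun e => nz (κ e)) dk.continuousAt un
  rw [kz'] at pl
  have t1 : Tendsto (fun p : (V × V) × V × V => p.1) (𝓝 (π z, π z)) (𝓝 (π z)) :=
    continuous_fst.tendsto _
  have t2 : Tendsto (fun p : (V × V) × V × V => p.2) (𝓝 (π z, π z)) (𝓝 (π z)) :=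
    continuous_snd.tendsto _
  rw [← kz'] at h
  have := h.second (k := fun e => nz (κ e)) o o' un dk (d2.comp (π z) dk) (M := M' * 3) (by
    filter_upwards [pl.eventually s3, t1.eventually nW, t2.eventually nW] with p hp h1 h2
    obtain ⟨b1, -, b3⟩ := pc_le (m' := m') (φ := φ) ((cf.norm z z0).trans hz) (κ p.1) (κ p.2)
    rw [← hπ, ch.right _ h1, ch.right _ h2, norm_sub_rev p.1] at b1 b3
    have c3 := hp.trans (mul_le_mul_of_nonneg_left (add_le_add b1 b3) M0.le)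
    exact ⟨by linarith [norm_nonneg (φ (nz (κ p.2)) - φ (nz (κ p.1)))],
      by linarith [norm_nonneg (nz (κ p.2) - nz (κ p.1))]⟩) (P ξ) (P η)
  simp only [ContinuousLinearMap.comp_apply, ContinuousLinearEquiv.coe_coe,
    ContinuousLinearEquiv.symm_apply_apply, kz'] at this
  rw [(hN ξ).1, (hN ξ).2.1, (hN ξ).2.2.1, (hN ξ).2.2.2, (hN η).1, (hN η).2.1, (hN η).2.2.1,
    (hN η).2.2.2] at this
  simp only [inner_sub_left, inner_sub_right, inner_smul_left, inner_smul_right, conj_trivial]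
    at this
  rw [real_inner_comm (φ z).2, real_inner_comm z.2 (m.hor z ξ), al, al] at this
  linarith

/-- Almost every vector is good. -/
theorem ae_gd (o : m.OK) (j : m.Jac) (o' : m'.OK) (cf : C0F m m' φ) (ha : 0 < a)
    (L : LIPF m m' φ a) : ∀ᵐ z : V × V, Gd m m' φ a (z.1, ‖z.2‖⁻¹ • z.2) := by
  have n : ∀ᵐ z : V × V, z.2 ≠ 0 :=
    (Measure.quasiMeasurePreserving_snd (μ := volume) (ν := volume)).ae
      (Measure.ae_ne (volume : Measure V) 0)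
  filter_upwards [ae_dif o' cf ha L, n] with z h hz
  exact gd o j o' cf ha L (nz_unit hz) (dif_nz cf hz (h hz))

end Pool.Agent.MP_3ee8cb_gt.CZL
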