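import Pool.Agent.MP_3ee8cb_gt.CZL.Inf

/-! The graph of the conjugacy is a Lipschitz graph. -/

namespace Pool.Agent.MP_3ee8cb_gt.CZL

open Set Filter Topology D3
open scoped RealInnerProductSpace

variable {m m' : MF} {ψ : V × V → V × V} {a c C ε : ℝ} {z₀ : V × V}

/-- The vertical chart coordinate at `w₀`. -/
noncomputable def ec (m : MF) (w₀ : V × V) : V × V →L[ℝ] V :=
  m.ver w₀ - ((innerSL ℝ w₀.2).comp (m.ver w₀)).smulRight w₀.2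

theorem ec_apply (m : MF) (w₀ ξ : V × V) :
    ec m w₀ ξ = m.ver w₀ ξ - ⟪w₀.2, m.ver w₀ ξ⟫ • w₀.2 := rfl

theorem ec_perp (m : MF) {w₀ : V × V} (h : ‖w₀.2‖ = 1) (ξ : V × V) : ⟪w₀.2, ec m w₀ ξ⟫ = 0 := by
  rw [ec_apply, inner_sub_right, inner_smul_right, real_inner_self_eq_norm_sq, h]
  ring

theorem ver_rad (o : m.OK) (w₀ ξ : V × V) : ⟪w₀.2, m.ver w₀ ξ⟫ = ⟪w₀.2, ξ.2⟫ := by
  have s := o.skew w₀.1 ξ.1 w₀.2 w₀.2
  rw [real_inner_comm] at s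
  have : m.ver w₀ ξ = ξ.2 + m.om w₀.1 ξ.1 w₀.2 := rfl
  rw [this, inner_add_right]
  linarith

theorem le_of_sq {u k x a C : ℝ} (ha : 0 < a) (hk : 0 ≤ k) (hx : 0 ≤ x)
    (h : a * u ^ 2 ≤ 2 * k ^ 2 + C * x ^ 2) : u ≤ (1 + (2 + |C|) / a) * (k + x) := by
  have p : 0 ≤ (2 + |C|) / a := by positivity
  have h1 : u ^ 2 ≤ (2 + |C|) / a * (k + x) ^ 2 := by
    rw [div_mul_eq_mul_div, le_div_iff₀ ha]
    nlinarith [le_abs_self C, abs_nonneg C, mul_nonneg hk hx, sq_nonneg k, sq_nonneg x,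
      mul_nonneg (abs_nonneg C) (mul_nonneg hk hx), mul_nonneg (abs_nonneg C) (sq_nonneg k),
      mul_le_mul_of_nonneg_right (le_abs_self C) (sq_nonneg x)]
  refine le_of_sq_le_sq (h1.trans ?_) (by positivity)
  rw [mul_pow]
  exact mul_le_mul_of_nonneg_right (by nlinarith) (sq_nonneg _)

/-- The graph inequality on pairs of unit vectors. -/
theorem Two.graph (o' : m'.OK) (h : Two m m' ψ a c C 1 z₀) (ha : 0 < a) (hc : 0 < c)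
    (h0 : ‖z₀.2‖ = 1) (cψ : ContinuousWithinAt ψ {z | ‖z.2‖ = 1} z₀)
    (nψ : ∀ z : V × V, ‖z.2‖ = 1 → ‖(ψ z).2‖ = 1) : ∃ M : ℝ, 0 < M ∧ ∀ᶠ p in 𝓝[U2] (z₀, z₀),
      ‖p.2 - p.1‖ + ‖ψ p.2 - ψ p.1‖ ≤
        M * (‖p.2.1 - p.1.1‖ + ‖ec m' (ψ z₀) (ψ p.2) - ec m' (ψ z₀) (ψ p.1)‖) := by
  set A := 1 + (2 + |C|) / a ^ 2 with hA
  set B := 1 + (2 + |C|) / c with hB
  set R := ‖m'.R (ψ z₀).1‖ with hR
  set O := ‖m'.om (ψ z₀).1‖ with hO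
  have A0 : 0 < A := by positivity
  have B0 : 0 < B := by positivity
  have R0 : 0 ≤ R := norm_nonneg _
  have O0 : 0 ≤ O := ContinuousLinearMap.opNorm_nonneg _
  set D := 1 + O * (R * A) with hD
  have D0 : 0 < D := by positivity
  have t1 : Tendsto (fun p : (V × V) × V × V => p.1) (𝓝[U2] (z₀, z₀)) (𝓝[{z | ‖z.2‖ = 1}] z₀) :=
    tendsto_nhdsWithin_iff.2 ⟨(continuous_fst.tendsto _).mono_left nhdsWithin_le_nhds,
      eventually_nhdsWithin_of_forall fun p hp => hp.1⟩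
  have t2 : Tendsto (fun p : (V × V) × V × V => p.2) (𝓝[U2] (z₀, z₀)) (𝓝[{z | ‖z.2‖ = 1}] z₀) :=
    tendsto_nhdsWithin_iff.2 ⟨(continuous_snd.tendsto _).mono_left nhdsWithin_le_nhds,
      eventually_nhdsWithin_of_forall fun p hp => hp.2⟩
  have sm : ∀ᶠ z in 𝓝[{z : V × V | ‖z.2‖ = 1}] z₀, ‖(ψ z₀).2 - (ψ z).2‖ ≤ 1 / (2 * D) := by
    have : Tendsto (fun z => ‖(ψ z₀).2 - (ψ z).2‖) (𝓝[{z : V × V | ‖z.2‖ = 1}] z₀)
        (𝓝 ‖(ψ z₀).2 - (ψ z₀).2‖) :=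
      (tendsto_const_nhds.sub ((continuous_snd.tendsto _).comp cψ.tendsto)).norm
    rw [sub_self, norm_zero] at this
    exact this.eventually (ge_mem_nhds (by positivity))
  refine ⟨1 + 2 * (B + R * A + D), by positivity, ?_⟩
  filter_upwards [h, t1.eventually sm, t2.eventually sm, self_mem_nhdsWithin] with p hp s1 s2 hu
  obtain ⟨hp, -⟩ := hp
  rw [← map_sub]
  set δ := ψ p.2 - ψ p.1 with hδ
  set k := ‖m'.ver (ψ z₀) δ‖ with hk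
  set x := ‖p.2.1 - p.1.1‖ with hx
  set e := ‖ec m' (ψ z₀) δ‖ with he
  have k0 : 0 ≤ k := norm_nonneg _
  have x0 : 0 ≤ x := norm_nonneg _
  have e0 : 0 ≤ e := norm_nonneg _
  have b1 : ‖p.2.2 - p.1.2‖ ≤ B * (k + x) := le_of_sq hc k0 x0 (by
    nlinarith [sq_nonneg (a * ‖m'.hor (ψ z₀) δ‖)])
  have b2 : ‖m'.hor (ψ z₀) δ‖ ≤ A * (k + x) := le_of_sq (by positivity) k0 x0 (by
    nlinarith [mul_nonneg hc.le (sq_nonneg ‖p.2.2 - p.1.2‖)])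
  have b3 : ‖δ.1‖ ≤ R * A * (k + x) := by
    have : δ.1 = m'.R (ψ z₀).1 (m'.hor (ψ z₀) δ) := (o'.RS _ _).symm
    rw [this, mul_assoc]
    exact ((m'.R (ψ z₀).1).le_opNorm _).trans (mul_le_mul_of_nonneg_left b2 R0)
  have w0 := nψ z₀ h0
  have b4 : ‖δ.2‖ ≤ D * (k + x) := by
    have : δ.2 = m'.ver (ψ z₀) δ - m'.om (ψ z₀).1 δ.1 (ψ z₀).2 :=
      eq_sub_of_add_eq (rfl : δ.2 + m'.om (ψ z₀).1 δ.1 (ψ z₀).2 = m'.ver (ψ z₀) δ)
    have l := (m'.om (ψ z₀).1).le_opNorm₂ δ.1 (ψ z₀).2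
    rw [w0, mul_one] at l
    rw [this]
    refine (norm_sub_le _ _).trans ?_
    have := mul_le_mul_of_nonneg_left b3 O0
    rw [hD]
    nlinarith
  have b5 : k ≤ e + 1 / (2 * D) * ‖δ.2‖ := by
    have e1 : m'.ver (ψ z₀) δ = ec m' (ψ z₀) δ + ⟪(ψ z₀).2, δ.2⟫ • (ψ z₀).2 := by
      rw [ec_apply, ver_rad o', sub_add_cancel]
    have e2 : 2 * ⟪(ψ z₀).2, δ.2⟫ =
        ⟪(ψ z₀).2 - (ψ p.1).2, δ.2⟫ + ⟪(ψ z₀).2 - (ψ p.2).2, δ.2⟫ := by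
      have d : δ.2 = (ψ p.2).2 - (ψ p.1).2 := rfl
      have : ⟪(ψ p.1).2, δ.2⟫ + ⟪(ψ p.2).2, δ.2⟫ = 0 := by
        rw [d, inner_sub_right, inner_sub_right, real_inner_self_eq_norm_sq,
          real_inner_self_eq_norm_sq, nψ _ hu.1, nψ _ hu.2, real_inner_comm]
        ring
      rw [inner_sub_left, inner_sub_left]
      linarith
    have a1 := (abs_real_inner_le_norm ((ψ z₀).2 - (ψ p.1).2) δ.2).trans
      (mul_le_mul_of_nonneg_right s1 (norm_nonneg _))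
    have a2 := (abs_real_inner_le_norm ((ψ z₀).2 - (ψ p.2).2) δ.2).trans
      (mul_le_mul_of_nonneg_right s2 (norm_nonneg _))
    have a3 : |⟪(ψ z₀).2, δ.2⟫| ≤ 1 / (2 * D) * ‖δ.2‖ :=
      abs_le.2 ⟨by linarith [(abs_le.1 a1).1, (abs_le.1 a2).1],
        by linarith [(abs_le.1 a1).2, (abs_le.1 a2).2]⟩
    rw [hk, e1]
    refine (norm_add_le _ _).trans ?_
    rw [norm_smul, w0, mul_one, Real.norm_eq_abs]
    linarith
  have b6 : k + x ≤ 2 * (x + e) := by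
    have := mul_le_mul_of_nonneg_left b4 (by positivity : 0 ≤ 1 / (2 * D))
    have e1 : 1 / (2 * D) * (D * (k + x)) = (k + x) / 2 := by field_simp
    linarith
  have n1 : ‖p.2 - p.1‖ ≤ x + ‖p.2.2 - p.1.2‖ :=
    max_le (le_add_of_nonneg_right (norm_nonneg _)) (le_add_of_nonneg_left x0)
  have n2 : ‖δ‖ ≤ ‖δ.1‖ + ‖δ.2‖ :=
    max_le (le_add_of_nonneg_right (norm_nonneg _)) (le_add_of_nonneg_left (norm_nonneg _))
  have := mul_le_mul_of_nonneg_left b6 (by positivity : 0 ≤ B + R * A + D)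
  nlinarith

end Pool.Agent.MP_3ee8cb_gt.CZL
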